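import Mathlib

/-!
Definitions for the residuality theorem for Fréchet smooth norms on `C₀(L)`.
-/

set_option autoImplicit false

open scoped ZeroAtInfty Topology
open Filter Set

namespace Pool.Agent.Helper74.Rsd

/-- `p` is a norm on `E` with `a ‖x‖ ≤ p x ≤ b ‖x‖`. -/
structure IsEqNorm {E : Type*} [NormedAddCommGroup E] [NormedSpace ℝ E]
    (p : E → ℝ) (a b : ℝ) : Prop where
  add : ∀ x y : E, p (x + y) ≤ p x + p y
  smul : ∀ (c : ℝ) (x : E), p (c • x) = |c| * p x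
  a_pos : 0 < a
  b_pos : 0 < b
  lower : ∀ x : E, a * ‖x‖ ≤ p x
  upper : ∀ x : E, p x ≤ b * ‖x‖

section
variable {L : Type*} [TopologicalSpace L]

/-- The pairing `∑ h γ * x γ`. -/
noncomputable def pr (h : L → ℝ) (x : C₀(L, ℝ)) : ℝ := ∑' γ, h γ * x γ

/-- The mass `∑_{γ ∈ J} |h γ|`. -/
noncomputable def mass (h : L → ℝ) (J : Set L) : ℝ :=
  ∑' γ, J.indicator (fun γ => |h γ|) γ

/-- The dual norm of `p` on `ℓ¹(L)`. -/
noncomputable def dn (p : C₀(L, ℝ) → ℝ) (h : L → ℝ) : ℝ :=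
  sSup {v | ∃ x, p x ≤ 1 ∧ v = pr h x}

end

end Pool.Agent.Helper74.Rsd
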