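import Pool.Agent.Helper74.Rsd.Defs

/-! The space of equivalent norms, and residuality in elementary terms. -/

set_option autoImplicit false

open scoped Topology
open Filter Set

namespace Pool.Agent.Helper74.Rsd

/-- the norms on `Y` equivalent to the given one -/
abbrev Nm (Y : Type*) [NormedAddCommGroup Y] [NormedSpace ℝ Y] : Type _ :=
  {q : Y → ℝ // ∃ a b, IsEqNorm q a b}

/-- the topology of uniform convergence on the ball -/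
@[instance_reducible] def topNm (Y : Type*) [NormedAddCommGroup Y] [NormedSpace ℝ Y] : TopologicalSpace (Nm Y) where
  IsOpen U := ∀ p ∈ U, ∃ ε > (0 : ℝ), ∀ q : Nm Y, (∀ y, |p.1 y - q.1 y| ≤ ε * ‖y‖) → q ∈ U
  isOpen_univ := fun p _ => ⟨1, one_pos, fun q _ => mem_univ q⟩
  isOpen_inter := by
    intro s t hs ht p hp
    obtain ⟨ε1, h1, h2⟩ := hs p hp.1
    obtain ⟨ε2, h3, h4⟩ := ht p hp.2
    refine ⟨min ε1 ε2, lt_min h1 h3, fun q hq => ⟨h2 q fun y => ?_, h4 q fun y => ?_⟩⟩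
    · exact (hq y).trans (mul_le_mul_of_nonneg_right (min_le_left _ _) (norm_nonneg _))
    · exact (hq y).trans (mul_le_mul_of_nonneg_right (min_le_right _ _) (norm_nonneg _))
  isOpen_sUnion := by
    intro s hs p hp
    obtain ⟨t, ht, hpt⟩ := hp
    obtain ⟨ε, h1, h2⟩ := hs t ht p hpt
    exact ⟨ε, h1, fun q hq => ⟨t, ht, h2 q hq⟩⟩

theorem Nm.map_zero {Y : Type*} [NormedAddCommGroup Y] [NormedSpace ℝ Y] {q : Y → ℝ} {a b : ℝ}
    (hq : IsEqNorm q a b) : q 0 = 0 := by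
  have := hq.smul 0 (0 : Y)
  simpa using this

/-- translation of residuality in `Nm Y` into elementary terms -/
theorem elementary {Y : Type*} [NormedAddCommGroup Y] [NormedSpace ℝ Y]
    (U : ℕ → Set (Nm Y)) (hU1 : ∀ n, @IsOpen _ (topNm Y) (U n))
    (hU2 : ∀ n, @Dense _ (topNm Y) (U n))
    (hU3 : ∀ q, (∀ n, q ∈ U n) → ∀ y, y ≠ 0 → DifferentiableAt ℝ q.1 y)
    (N : Set (Y → ℝ))
    (hN : N = {p : Y → ℝ | (∀ x y : Y, p (x + y) ≤ p x + p y) ∧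
            (∀ (c : ℝ) (x : Y), p (c • x) = |c| * p x) ∧
            (∃ a b : ℝ, 0 < a ∧ 0 < b ∧ ∀ x : Y, a * ‖x‖ ≤ p x ∧ p x ≤ b * ‖x‖)}) :
    ∃ U : ℕ → Set (Y → ℝ),
        (∀ n, U n ⊆ N) ∧
        (∀ n, ∀ p ∈ U n, ∃ ε > (0 : ℝ), ∀ q ∈ N,
            (∀ x : Y, ‖x‖ ≤ 1 → |p x - q x| ≤ ε) → q ∈ U n) ∧
        (∀ n, ∀ p ∈ N, ∀ ε > (0 : ℝ), ∃ q ∈ U n,
            ∀ x : Y, ‖x‖ ≤ 1 → |p x - q x| ≤ ε) ∧
        (∀ p ∈ N, (∀ n, p ∈ U n) → ∀ x : Y, x ≠ 0 → DifferentiableAt ℝ p x) := by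
  have hiff : ∀ p : Y → ℝ, p ∈ N ↔ ∃ a b, IsEqNorm p a b := by
    intro p
    rw [hN]
    constructor
    · rintro ⟨h1, h2, a, b, ha, hb, h3⟩
      exact ⟨a, b, h1, h2, ha, hb, fun x => (h3 x).1, fun x => (h3 x).2⟩
    · rintro ⟨a, b, h⟩
      exact ⟨h.add, h.smul, a, b, h.a_pos, h.b_pos, fun x => ⟨h.lower x, h.upper x⟩⟩
  refine ⟨fun n => {p | ∃ h : ∃ a b, IsEqNorm p a b, (⟨p, h⟩ : Nm Y) ∈ U n}, ?_, ?_, ?_, ?_⟩
  · rintro n p ⟨h, -⟩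
    exact (hiff p).mpr h
  · rintro n p ⟨h, hp⟩
    obtain ⟨ε, hε, hball⟩ := hU1 n ⟨p, h⟩ hp
    refine ⟨ε, hε, fun q hq hpq => ?_⟩
    have hqN := (hiff q).mp hq
    refine ⟨hqN, hball ⟨q, hqN⟩ fun y => ?_⟩
    obtain ⟨a, b, hpn⟩ := h
    obtain ⟨a', b', hqn⟩ := hqN
    change |p y - q y| ≤ ε * ‖y‖
    by_cases hy : y = 0
    · subst hy
      rw [Nm.map_zero hpn, Nm.map_zero hqn]
      simp
    · have hy0 : 0 < ‖y‖ := norm_pos_iff.mpr hy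
      have h1 := hpq ((‖y‖)⁻¹ • y) (by
        rw [norm_smul, norm_inv, norm_norm, inv_mul_cancel₀ hy0.ne'])
      rw [hpn.smul, hqn.smul, ← mul_sub, abs_mul, abs_abs, abs_of_pos (inv_pos.mpr hy0),
        inv_mul_le_iff₀ hy0] at h1
      linarith
  · intro n p hp ε hε
    have hpN := (hiff p).mp hp
    let V : Set (Nm Y) := {q | ∃ c < ε, ∀ y, |p y - q.1 y| ≤ c * ‖y‖}
    have hV : @IsOpen _ (topNm Y) V := by
      rintro q ⟨c, hc, hq⟩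
      refine ⟨(ε - c) / 2, by linarith, fun q' hq' => ⟨c + (ε - c) / 2, by linarith, fun y => ?_⟩⟩
      have h1 := abs_sub_le (p y) (q.1 y) (q'.1 y)
      have h2 := hq' y
      have h3 := hq y
      linarith [add_mul c ((ε - c) / 2) ‖y‖]
    have hVne : V.Nonempty := ⟨⟨p, hpN⟩, 0, hε, fun y => by simp⟩
    obtain ⟨q, ⟨c, hc, hq⟩, hqU⟩ := @Dense.inter_open_nonempty _ (topNm Y) _ (hU2 n) V hV hVne
    refine ⟨q.1, ⟨q.2, hqU⟩, fun x hx => (hq x).trans ?_⟩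
    have h0 : 0 ≤ c * ‖x‖ := (abs_nonneg _).trans (hq x)
    have h1 := norm_nonneg x
    nlinarith
  · intro p hp hpU x hx
    have hpN := (hiff p).mp hp
    exact hU3 ⟨p, hpN⟩ (fun n => by
      obtain ⟨_, h⟩ := hpU n
      exact h) x hx

end Pool.Agent.Helper74.Rsd
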